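import Pool.Agent.Helper974.HeatMain

/-!
# Weights with large heat trace constant: the limiting value `√π / e`
-/

set_option autoImplicit false

namespace Pool.Agent.Y688.HT

open MeasureTheory Metric Set Pool.Agent.Helper974.Heat
open scoped ENNReal ContDiff Topology

lemma final_gen {κ a ε V Λ T L C1 c : ℝ} (hκ : 0 < κ) (hε : 0 < ε) (ha : a = κ * (1 + ε))
    (hV0 : 0 < V) (hV : V ≤ L + C1) (haV : Real.pi / (2 * V) ≤ a * √a) (hΛ : L - 1 ≤ Λ)
    (hL : 6 < L) (hT : (√(Real.pi / (4 * (Real.pi / Λ) ^ 2)) - 1) / 2 ≤ T)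
    (hmain : c * (1 + ε) ^ 2 * (L + C1) < √Real.pi * Real.exp (-1) * (L - 5)) :
    c < ((4 * κ) * √(4 * κ)) * (Real.exp (-1) * T) := by
  set s := √Real.pi with hs
  have hpi := Real.pi_pos
  have hs2 : s ^ 2 = Real.pi := Real.sq_sqrt hpi.le
  have hs0 : 0 < s := Real.sqrt_pos.2 hpi
  have hs_hi : s ≤ 2 := by
    rw [hs, Real.sqrt_le_left (by norm_num)]
    have := Real.pi_lt_d4
    norm_num at this ⊢; linarith
  have hΛ0 : 0 < Λ := by linarith
  have e1 : √(Real.pi / (4 * (Real.pi / Λ) ^ 2)) = Λ / (2 * s) := by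
    rw [Real.sqrt_eq_iff_mul_self_eq (by positivity) (by positivity)]
    rw [← hs2]
    field_simp
    ring
  rw [e1] at hT
  have hT2 : (L - 5) / (4 * s) ≤ T := by
    refine le_trans ?_ hT
    have h1 : (L - 1) / (2 * s) ≤ Λ / (2 * s) := div_le_div_of_nonneg_right hΛ (by positivity)
    have h2 : (L - 5) / (4 * s) ≤ ((L - 1) / (2 * s) - 1) / 2 := by
      have e : ((L - 1) / (2 * s) - 1) / 2 = (L - 1 - 2 * s) / (4 * s) := by
        field_simp
        ring
      rw [e]
      apply div_le_div_of_nonneg_right _ (by positivity)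
      linarith
    linarith
  have e2 : √(4 * κ) = 2 * √κ := by
    rw [Real.sqrt_mul (by norm_num), show (4 : ℝ) = 2 ^ 2 by norm_num, Real.sqrt_sq (by norm_num)]
  rw [e2]
  have h3 : a * √a ≤ (κ * √κ) * ((1 + ε) ^ 2) := by
    rw [ha, Real.sqrt_mul hκ.le]
    have h4 : √(1 + ε) ≤ 1 + ε := by
      rw [Real.sqrt_le_left (by linarith)]; nlinarith
    have h5 : 0 ≤ κ * √κ := by positivity
    calc κ * (1 + ε) * (√κ * √(1 + ε)) = (κ * √κ) * ((1 + ε) * √(1 + ε)) := by ring
      _ ≤ (κ * √κ) * ((1 + ε) * (1 + ε)) := by gcongr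
      _ = _ := by ring
  have hLC : 0 < L + C1 := lt_of_lt_of_le hV0 hV
  have h6 : s ^ 2 / (2 * (L + C1)) ≤ Real.pi / (2 * V) := by
    rw [hs2]
    apply div_le_div_of_nonneg_left hpi.le (by positivity) (by linarith)
  have h7 : s ^ 2 / (2 * (L + C1) * (1 + ε) ^ 2) ≤ κ * √κ := by
    rw [← div_div, div_le_iff₀ (by positivity)]
    exact h6.trans (haV.trans h3)
  have hT0 : 0 < (L - 5) / (4 * s) := by
    apply div_pos (by linarith) (by positivity)
  calc c < 8 * (s ^ 2 / (2 * (L + C1) * (1 + ε) ^ 2)) * (Real.exp (-1) * ((L - 5) / (4 * s))) := by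
        have e3 : 8 * (s ^ 2 / (2 * (L + C1) * (1 + ε) ^ 2)) * (Real.exp (-1) * ((L - 5) / (4 * s)))
            = (s * Real.exp (-1) * (L - 5)) / ((1 + ε) ^ 2 * (L + C1)) := by
          field_simp
          ring
        rw [e3, lt_div_iff₀ (by positivity)]
        calc c * ((1 + ε) ^ 2 * (L + C1)) = c * (1 + ε) ^ 2 * (L + C1) := by ring
          _ < _ := hmain
    _ ≤ 8 * (κ * √κ) * (Real.exp (-1) * T) := by gcongr
    _ = (4 * κ * (2 * √κ)) * (Real.exp (-1) * T) := by ring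

/-- parameters with `c (1 + ε)² (L + log (9 / ε)) < √π e⁻¹ (L - 5)`. -/
lemma exists_param {c : ℝ} (hc0 : 0 ≤ c) (hc : c < √Real.pi * Real.exp (-1)) :
    ∃ ε L : ℝ, 0 < ε ∧ ε < 1 ∧ 6 < L ∧
      c * (1 + ε) ^ 2 * (L + Real.log (9 / ε)) < √Real.pi * Real.exp (-1) * (L - 5) := by
  set Q := √Real.pi * Real.exp (-1) with hQ
  have hQ0 : 0 < Q := by positivity
  -- choose `ε` with `c (1 + ε)² < Q`
  obtain ⟨ε, hε0, hε1, hε⟩ : ∃ ε : ℝ, 0 < ε ∧ ε < 1 ∧ c * (1 + ε) ^ 2 < Q := by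
    refine ⟨min (1 / 2) ((Q - c) / (4 * (c + 1))), ?_, ?_, ?_⟩
    · apply lt_min (by norm_num)
      apply div_pos (by linarith) (by positivity)
    · exact (min_le_left _ _).trans_lt (by norm_num)
    · set e := min (1 / 2) ((Q - c) / (4 * (c + 1))) with he
      have he0 : 0 < e := by
        apply lt_min (by norm_num)
        apply div_pos (by linarith) (by positivity)
      have he1 : e ≤ 1 / 2 := min_le_left _ _
      have he2 : e ≤ (Q - c) / (4 * (c + 1)) := min_le_right _ _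
      rw [le_div_iff₀ (by positivity)] at he2
      have h1 : c * (1 + e) ^ 2 = c + c * e * (2 + e) := by ring
      have h2 : c * e * (2 + e) ≤ c * e * (5 / 2) := by
        apply mul_le_mul_of_nonneg_left (by linarith) (by positivity)
      have h3 : 0 ≤ c * e := by positivity
      rw [h1]
      nlinarith
  set q := c * (1 + ε) ^ 2 with hq
  have hq0 : 0 ≤ q := by positivity
  set C1 := Real.log (9 / ε) with hC1
  refine ⟨ε, max 7 ((q * C1 + 5 * Q + 1) / (Q - q)), hε0, hε1,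
    lt_of_lt_of_le (by norm_num) (le_max_left _ _), ?_⟩
  set L := max 7 ((q * C1 + 5 * Q + 1) / (Q - q)) with hL
  have h1 : (q * C1 + 5 * Q + 1) / (Q - q) ≤ L := le_max_right _ _
  rw [div_le_iff₀ (by linarith)] at h1
  nlinarith

theorem exists_weight {c : ℝ} (hc : c < √Real.pi * Real.exp (-1)) :
    ∃ W : EE 3 → ℝ, IsWeight W ∧ ENNReal.ofReal c < supTrace W := by
  obtain ⟨ε, L, hε0, hε1, hL, hmain⟩ := exists_param (c := max c 0) (le_max_right _ _)
    (max_lt hc (by positivity))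
  set r : ℝ := Real.exp (-L) with hr
  have hr0 : 0 < r := Real.exp_pos _
  have hr1 : r < 1 / 4 := by
    have h1 : L + 1 ≤ Real.exp L := Real.add_one_le_exp _
    rw [hr, Real.exp_neg, inv_eq_one_div]
    apply one_div_lt_one_div_of_lt (by norm_num)
    linarith
  obtain ⟨p⟩ := exists_plat hr0 (by linarith)
  set d : ℝ := r * ε / 3 with hd
  have hd0 : 0 < d := by positivity
  have hd1 : d ≤ 1 := by rw [hd]; nlinarith
  refine ⟨Wd d, isWeight_Wd hd0, ?_⟩
  set κ : ℝ := aa d / (1 + ε) with hκ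
  have hκ0 : 0 < κ := div_pos (aa_pos hd0) (by linarith)
  have hW : Continuous (Wd d) := (isWeight_Wd hd0).smooth.continuous
  have hcond : ∀ x : SS 3, |(x : EE 3) 3| ≤ 1 - r → κ ≤ Wd d x * (1 - (x : EE 3) 3 ^ 2) := by
    intro x hx
    unfold Wd
    rw [W0_sph]
    have h1 := abs_le.1 hx
    have h2 : r ≤ 1 - (x : EE 3) 3 ^ 2 := by nlinarith [h1.1, h1.2]
    have h3 : 0 < (1 + d) ^ 2 - (x : EE 3) 3 ^ 2 := by nlinarith
    have h4 : (1 + d) ^ 2 - (x : EE 3) 3 ^ 2 ≤ (1 + ε) * (1 - (x : EE 3) 3 ^ 2) := by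
      have h5 : 2 * d + d ^ 2 ≤ r * ε := by
        have : d ^ 2 ≤ d := by nlinarith
        have h6 : 3 * d = r * ε := by rw [hd]; ring
        linarith
      nlinarith
    have ha := aa_pos hd0
    rw [hκ, div_le_iff₀ (by linarith)]
    rw [mul_assoc, mul_assoc]
    refine le_mul_of_one_le_right ha.le ?_
    rw [inv_mul_eq_div, one_le_div h3]
    linarith
  have hge := heatTrace_ge p hW hκ0 hcond
  have hpos4 : 0 < 4 * κ := by positivity
  have hlow : ENNReal.ofReal (((4 * κ) * √(4 * κ)) * (Real.exp (-1) * TT (4 * p.MM ^ 2)))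
      ≤ supTrace (Wd d) := by
    rw [ENNReal.ofReal_mul (by positivity)]
    refine le_trans ?_ (le_iSup₂ (f := fun (t : ℝ) (_ : 0 < t) =>
      ENNReal.ofReal (t ^ (((3 : ℕ) : ℝ) / 2)) * heatTrace (Wd d) t) (4 * κ) hpos4)
    rw [rpow_three hpos4]
    exact mul_le_mul_right hge _
  refine lt_of_lt_of_le ?_ hlow
  refine lt_of_le_of_lt (ENNReal.ofReal_le_ofReal (le_max_left c 0)) ?_
  rw [ENNReal.ofReal_lt_ofReal_iff_of_nonneg (le_max_right _ _)]
  have hlog : Real.log (1 / r) = L := by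
    rw [one_div, Real.log_inv, hr, Real.log_exp]; norm_num
  have hII := II_le hd0 hd1
  have hIIpos := II_pos hd0
  have harea := area_pos
  have hpi := Real.pi_pos
  have h3d : 3 / d = (9 / ε) * (1 / r) := by
    rw [hd]; field_simp; norm_num
  have h3d1 : 1 < 3 / d := by
    rw [lt_div_iff₀ hd0]; linarith
  refine final_gen (ε := ε) (C1 := Real.log (9 / ε)) (L := L) (V := Real.log (3 / d))
    (Λ := p.Lam) (a := aa d) hκ0 hε0 ?_ ?_ ?_ ?_ ?_ hL (TT_ge ?_) hmain
  · rw [hκ]; exact (div_mul_cancel₀ _ (by linarith)).symm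
  · exact Real.log_pos h3d1
  · rw [h3d, Real.log_mul (by positivity) (by positivity), hlog]
    linarith
  · rw [← rpow_three (aa_pos hd0), aa_rpow hd0]
    have hlogpos : 0 < Real.log (3 / d) := Real.log_pos h3d1
    rw [div_le_div_iff₀ (by positivity) hIIpos]
    calc Real.pi * II d ≤ Real.pi * (area * (2 / Real.pi) * Real.log (3 / d)) :=
          mul_le_mul_of_nonneg_left hII hpi.le
      _ = area * (2 * Real.log (3 / d)) := by field_simp
  · refine le_trans ?_ p.log_le_Lam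
    have e : 1 / (2 * r) = (1 / r) * (1 / 2) := by field_simp
    rw [e, Real.log_mul (by positivity) (by norm_num), hlog, one_div, Real.log_inv]
    have := Real.log_two_lt_d9
    linarith
  · have := p.MM_pos
    show 0 < 4 * p.MM ^ 2
    positivity

/-- `1.003 * 13/20 < √π / e`. -/
theorem gap' : (1.003 * (13 / 20) : ℝ) < √Real.pi * Real.exp (-1) := by
  have hs_lo : 1.7724 ≤ √Real.pi := by
    apply Real.le_sqrt_of_sq_le
    have := Real.pi_gt_d4
    norm_num at this ⊢; linarith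
  have h8 : (1 : ℝ) / 2.7182818286 ≤ Real.exp (-1) := by
    rw [Real.exp_neg, inv_eq_one_div]
    exact one_div_le_one_div_of_le (Real.exp_pos _) Real.exp_one_lt_d9.le
  calc (1.003 * (13 / 20) : ℝ) < 1.7724 * (1 / 2.7182818286) := by norm_num
    _ ≤ √Real.pi * Real.exp (-1) := by gcongr

/-- `13/20 < √π / e`. -/
theorem gap : (13 / 20 : ℝ) < √Real.pi * Real.exp (-1) :=
  lt_trans (by norm_num) gap'

end Pool.Agent.Y688.HT
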